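import Pool.Agent.Helper35.RC.Cuntz

/-!
# RC-7: matrix bookkeeping for Cuntz comparison
-/

open scoped ENNReal NNReal Topology CStarAlgebra ComplexOrder
open Filter

noncomputable section

namespace Pool.Agent.Helper61.RC

section

variable {A : Type*} [CStarAlgebra A]

/-- the matrix with `(i, j)` entry `a` and other entries `0` -/
private def eij (k : ℕ) (i j : Fin (k + 1)) (a : A) : Mat (k + 1) A :=
  CStarMatrix.ofMatrix (Matrix.of fun p q => if p = i ∧ q = j then a else 0)

private lemma eij_apply (k : ℕ) (i j : Fin (k + 1)) (a : A) (p q : Fin (k + 1)) :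
    eij k i j a p q = if p = i ∧ q = j then a else 0 := rfl

private lemma dg_apply' (k : ℕ) (a : A) (p q : Fin k) :
    dg k a p q = if p = q then a else 0 := by
  change Matrix.diagonal (fun _ => a) p q = _
  rw [Matrix.diagonal_apply]

private lemma e00_eq (k : ℕ) (a : A) : e00 k a = eij k 0 0 a := rfl

private lemma eij_mul (k : ℕ) (i j l : Fin (k + 1)) (a b : A) :
    eij k i j a * eij k j l b = eij k i l (a * b) := by
  refine CStarMatrix.ext fun p q => ?_
  rw [CStarMatrix.mul_apply]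
  simp only [eij_apply]
  rw [Finset.sum_eq_single j]
  · by_cases hp : p = i <;> by_cases hq : q = l <;> simp [hp, hq]
  · intro b _ hb
    simp [hb]
  · simp

private lemma eij_star (k : ℕ) (i j : Fin (k + 1)) (a : A) :
    star (eij k i j a) = eij k j i (star a) := by
  refine CStarMatrix.ext fun p q => ?_
  rw [CStarMatrix.star_apply]
  simp only [eij_apply]
  by_cases hp : p = j <;> by_cases hq : q = i <;> simp [hp, hq]

private lemma eij_add (k : ℕ) (i j : Fin (k + 1)) (a b : A) :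
    eij k i j (a + b) = eij k i j a + eij k i j b := by
  refine CStarMatrix.ext fun p q => ?_
  rw [CStarMatrix.add_apply]
  simp only [eij_apply]
  split_ifs <;> simp

private lemma eij_sub (k : ℕ) (i j : Fin (k + 1)) (a b : A) :
    eij k i j (a - b) = eij k i j a - eij k i j b := by
  refine CStarMatrix.ext fun p q => ?_
  rw [CStarMatrix.sub_apply]
  simp only [eij_apply]
  split_ifs <;> simp

private lemma eij_zero (k : ℕ) (i j : Fin (k + 1)) : eij k i j (0 : A) = 0 := by
  refine CStarMatrix.ext fun p q => ?_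
  rw [CStarMatrix.zero_apply]
  simp only [eij_apply]
  split_ifs <;> rfl

private lemma eij_smul (k : ℕ) (i j : Fin (k + 1)) (c : ℂ) (a : A) :
    eij k i j (c • a) = c • eij k i j a := by
  refine CStarMatrix.ext fun p q => ?_
  rw [CStarMatrix.smul_apply]
  simp only [eij_apply]
  split_ifs <;> simp

private lemma eij_sum (k : ℕ) (i j : Fin (k + 1)) {ι : Type*} (s : Finset ι) (f : ι → A) :
    eij k i j (∑ t ∈ s, f t) = ∑ t ∈ s, eij k i j (f t) := by
  classical
  induction s using Finset.induction_on with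
  | empty => simp [eij_zero]
  | insert a s ha ih => rw [Finset.sum_insert ha, Finset.sum_insert ha, eij_add, ih]

variable [PartialOrder A] [StarOrderedRing A]

/-- the corner embedding as a homomorphism -/
private def eHom (k : ℕ) (i : Fin (k + 1)) : A →⋆ₙₐ[ℂ] Mat (k + 1) A where
  toFun := eij k i i
  map_smul' c a := eij_smul k i i c a
  map_zero' := eij_zero k i i
  map_add' a b := eij_add k i i a b
  map_mul' a b := (eij_mul k i i i a b).symm
  map_star' a := (eij_star k i i a).symm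

private lemma norm_eii_le (k : ℕ) (i : Fin (k + 1)) (a : A) : ‖eij k i i a‖ ≤ ‖a‖ :=
  NonUnitalStarAlgHom.norm_apply_le (eHom k i) a

private lemma eii_nonneg (k : ℕ) (i : Fin (k + 1)) {a : A} (ha : 0 ≤ a) : 0 ≤ eij k i i a := by
  obtain ⟨c, rfl⟩ := CStarAlgebra.nonneg_iff_eq_star_mul_self.mp ha
  have : eij k i i (star c * c) = star (eij k i i c) * eij k i i c := by
    rw [eij_star, eij_mul]
  rw [this]
  exact star_mul_self_nonneg _

private lemma dg_sum (k : ℕ) (a : A) : dg (k + 1) a = ∑ l, eij k l l a := by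
  refine CStarMatrix.ext fun p q => ?_
  have hs : ∀ s : Finset (Fin (k + 1)), (∑ l ∈ s, eij k l l a) p q = ∑ l ∈ s, eij k l l a p q := by
    intro s
    induction s using Finset.induction_on with
    | empty => simp
    | insert a s ha ih => rw [Finset.sum_insert ha, Finset.sum_insert ha, CStarMatrix.add_apply, ih]
  rw [hs, dg_apply']
  simp only [eij_apply]
  by_cases hpq : p = q
  · subst hpq
    simp
  · rw [if_neg hpq, Finset.sum_eq_zero]
    intro l _
    rw [if_neg]
    rintro ⟨rfl, rfl⟩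
    exact hpq rfl

private lemma dg_nonneg (k : ℕ) {a : A} (ha : 0 ≤ a) : 0 ≤ dg (k + 1) a := by
  rw [dg_sum]
  exact Finset.sum_nonneg fun l _ => eii_nonneg k l ha

private lemma dg_sub (k : ℕ) (a b : A) : dg (k + 1) (a - b) = dg (k + 1) a - dg (k + 1) b := by
  simp only [dg_sum, eij_sub, Finset.sum_sub_distrib]

private lemma dg_smul (k : ℕ) (c : ℂ) (a : A) : dg (k + 1) (c • a) = c • dg (k + 1) a := by
  simp only [dg_sum, eij_smul, Finset.smul_sum]

private lemma eii_cuntz (k : ℕ) (l : Fin (k + 1)) {r w : A} (h : CuntzLE r w) :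
    CuntzLE (eij k l l r) (eij k 0 0 w) := by
  intro ε hε
  obtain ⟨v, hv⟩ := h ε hε
  refine ⟨eij k l 0 v, ?_⟩
  rw [eij_star, eij_mul, eij_mul, ← eij_sub]
  exact (norm_eii_le k l _).trans_lt hv

-- RC-7
theorem combine {A : Type*} [CStarAlgebra A] [PartialOrder A] [StarOrderedRing A] (k : ℕ)
    (r ω r₁ r₂ : A) (w₁ w₂ : Fin (k + 1) → A) (C : ℝ) (hC : 0 < C)
    (hr : 0 ≤ r) (hr₁ : 0 ≤ r₁) (hr₂ : 0 ≤ r₂) (hle : r ≤ (C : ℂ) • (r₁ + r₂))
    (h₁ : ∀ l, CuntzLE r₁ (w₁ l)) (h₂ : ∀ l, CuntzLE r₂ (w₂ l))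
    (hw₁ : ∀ l, 0 ≤ w₁ l) (hw₂ : ∀ l, 0 ≤ w₂ l)
    (o₁ : ∀ l l', l ≠ l' → w₁ l * w₁ l' = 0) (o₂ : ∀ l l', l ≠ l' → w₂ l * w₂ l' = 0)
    (o₁₂ : ∀ l l', w₁ l * w₂ l' = 0) (hω : ∑ l, (w₁ l + w₂ l) ≤ (C : ℂ) • ω) :
    CuntzLE (dg (k + 1) r) (e00 k ω) := by
  have o₂₁ : ∀ l l', w₂ l' * w₁ l = 0 := by
    intro l l'
    have := congrArg star (o₁₂ l l')
    rwa [star_mul, star_zero, (IsSelfAdjoint.of_nonneg (hw₁ l)).star_eq,
      (IsSelfAdjoint.of_nonneg (hw₂ l')).star_eq] at this
  -- first step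
  have step1 : CuntzLE (dg (k + 1) r) (dg (k + 1) (r₁ + r₂)) := by
    refine CuntzLE.of_le_smul (dg_nonneg k hr) C hC ?_
    rw [← dg_smul, ← sub_nonneg, ← dg_sub]
    exact dg_nonneg k (sub_nonneg.mpr hle)
  -- second step
  let x : Fin (k + 1) × Bool → Mat (k + 1) A := fun t => if t.2 then eij k t.1 t.1 r₂
    else eij k t.1 t.1 r₁
  let b : Fin (k + 1) × Bool → Mat (k + 1) A := fun t => if t.2 then eij k 0 0 (w₂ t.1)
    else eij k 0 0 (w₁ t.1)
  have step2 : CuntzLE (∑ t, x t) (∑ t, b t) := by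
    refine CuntzLE.sum_of_orth Finset.univ x b ?_ ?_ ?_
    · rintro ⟨l, t⟩ _
      cases t
      · simpa [b] using eii_nonneg k 0 (hw₁ l)
      · simpa [b] using eii_nonneg k 0 (hw₂ l)
    · rintro ⟨l, t⟩ _ ⟨l', t'⟩ _ hne
      cases t <;> cases t'
      · have : l ≠ l' := fun h => hne (by rw [h])
        simp only [b, Bool.false_eq_true, if_false]
        rw [eij_mul, o₁ l l' this, eij_zero]
      · simp only [b, Bool.false_eq_true, if_false, if_true]
        rw [eij_mul, o₁₂, eij_zero]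
      · simp only [b, Bool.false_eq_true, if_false, if_true]
        rw [eij_mul, o₂₁, eij_zero]
      · have : l ≠ l' := fun h => hne (by rw [h])
        simp only [b, if_true]
        rw [eij_mul, o₂ l l' this, eij_zero]
    · rintro ⟨l, t⟩ _
      cases t
      · simpa [b, x] using eii_cuntz k l (h₁ l)
      · simpa [b, x] using eii_cuntz k l (h₂ l)
  have hx : ∑ t, x t = dg (k + 1) (r₁ + r₂) := by
    rw [Fintype.sum_prod_type, dg_sum]
    refine Finset.sum_congr rfl fun l _ => ?_
    simp [x, eij_add, add_comm]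
  have hb : ∑ t, b t = eij k 0 0 (∑ l, (w₁ l + w₂ l)) := by
    rw [Fintype.sum_prod_type, eij_sum]
    refine Finset.sum_congr rfl fun l _ => ?_
    simp [b, eij_add, add_comm]
  rw [hx, hb] at step2
  -- third step
  have step3 : CuntzLE (eij k 0 0 (∑ l, (w₁ l + w₂ l))) (e00 k ω) := by
    refine CuntzLE.of_le_smul (eii_nonneg k 0 ?_) C hC ?_
    · exact Finset.sum_nonneg fun l _ => add_nonneg (hw₁ l) (hw₂ l)
    · rw [e00_eq, ← eij_smul, ← sub_nonneg, ← eij_sub]
      exact eii_nonneg k 0 (sub_nonneg.mpr hω)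
  exact step1.trans (step2.trans step3)

end

end Pool.Agent.Helper61.RC
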