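import Pool.Agent.Helper35.RC.Cuntz
import Pool.Agent.Helper51.RD.Expect
import Pool.Agent.Helper51.RD.Localize

/-!
# RC-13: a nonzero positive matrix dominates a nonzero function
-/

open scoped ENNReal NNReal Topology CStarAlgebra ComplexOrder
open Filter

noncomputable section

namespace Pool.Agent.Helper61.RC

section
variable {A : Type*} [CStarAlgebra A]

/-- the matrix with `(0, i)` entry `a` and other entries `0` -/
private def row (k : ℕ) (i : Fin (k + 1)) (a : A) : Mat (k + 1) A :=
  CStarMatrix.ofMatrix (Matrix.of fun p q => if p = 0 ∧ q = i then a else 0)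

private lemma row_apply (k : ℕ) (i : Fin (k + 1)) (a : A) (p q : Fin (k + 1)) :
    row k i a p q = if p = 0 ∧ q = i then a else 0 := rfl

private lemma e00_apply (k : ℕ) (a : A) (p q : Fin (k + 1)) :
    e00 k a p q = if p = 0 ∧ q = 0 then a else 0 := rfl

private lemma row_conj (k : ℕ) (i : Fin (k + 1)) (a : A) (b : Mat (k + 1) A) :
    row k i a * b * star (row k i a) = e00 k (a * b i i * star a) := by
  refine CStarMatrix.ext fun p q => ?_
  rw [CStarMatrix.mul_apply, e00_apply]
  have h1 : ∀ j, (row k i a * b) p j = if p = 0 then a * b i j else 0 := by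
    intro j
    rw [CStarMatrix.mul_apply]
    by_cases hp : p = 0
    · simp [row_apply, hp]
    · simp [row_apply, hp]
  simp only [h1, CStarMatrix.star_apply, row_apply]
  by_cases hp : p = 0 <;> by_cases hq : q = 0
  · rw [Finset.sum_eq_single i]
    · simp [hp, hq]
    · intro j _ hj
      simp [hj]
    · simp
  · simp [hp, hq]
  · simp [hp, hq]
  · simp [hp, hq]

private lemma e00_sub (k : ℕ) (a b : A) : e00 k (a - b) = e00 k a - e00 k b := by
  refine CStarMatrix.ext fun p q => ?_
  rw [CStarMatrix.sub_apply]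
  simp only [e00_apply]
  split_ifs <;> simp

private lemma e00_star_mul (k : ℕ) (c : A) : e00 k (star c * c) = star (e00 k c) * e00 k c := by
  refine CStarMatrix.ext fun p q => ?_
  rw [CStarMatrix.mul_apply]
  simp only [e00_apply, CStarMatrix.star_apply]
  rw [Finset.sum_eq_single 0]
  · by_cases hp : p = 0 <;> by_cases hq : q = 0 <;> simp [hp, hq]
  · intro b _ hb
    simp [hb]
  · simp

variable [PartialOrder A] [StarOrderedRing A]

private lemma exists_sq {b : A} (hb : 0 ≤ b) : ∃ c : A, b = star c * c :=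
  CStarAlgebra.nonneg_iff_eq_star_mul_self.mp hb

private lemma e00_nonneg (k : ℕ) {a : A} (ha : 0 ≤ a) : 0 ≤ e00 k a := by
  obtain ⟨c, rfl⟩ := CStarAlgebra.nonneg_iff_eq_star_mul_self.mp ha
  rw [e00_star_mul]
  exact star_mul_self_nonneg _

private lemma le_of_norm_sub_le {x y : A} (hx : IsSelfAdjoint x) (hy : IsSelfAdjoint y) {δ : ℝ}
    (h : ‖y - x‖ ≤ δ) : x - (δ : ℂ) • (1 : A) ≤ y := by
  have h1 : IsSelfAdjoint (x - y) := hx.sub hy
  have h2 : x - y ≤ algebraMap ℝ A ‖x - y‖ := h1.le_algebraMap_norm_self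
  have h3 : algebraMap ℝ A ‖x - y‖ ≤ algebraMap ℝ A δ := by
    refine algebraMap_mono A ?_
    rwa [norm_sub_rev]
  have h4 : algebraMap ℝ A δ = (δ : ℂ) • (1 : A) := by
    rw [Algebra.algebraMap_eq_smul_one]
    rfl
  have h5 : x - y ≤ (δ : ℂ) • (1 : A) := h4 ▸ (h2.trans h3)
  rw [sub_le_iff_le_add] at h5 ⊢
  rwa [add_comm]

end

variable {X : Type*} [MetricSpace X] [CompactSpace X]

-- RC-13
theorem exists_fun_cuntz (h : X ≃ₜ X) (hfree : ∀ m : ℤ, m ≠ 0 → ∀ x, (h ^ m) x ≠ x) (k : ℕ)
    (b : Mat (k + 1) (Cross h)) (hb : 0 ≤ b) (hb0 : b ≠ 0) :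
    ∃ ω : C(X, ℝ), (∀ x, 0 ≤ ω x) ∧ (∃ x, 0 < ω x) ∧ CuntzLE (e00 k (cfun h ω)) b := by
  obtain ⟨c, hc⟩ := exists_sq hb
  -- diagonal entries
  have hbii : ∀ i, b i i = ∑ l, star (c l i) * c l i := by
    intro i
    rw [hc, CStarMatrix.mul_apply]
    rfl
  have hExi : ∀ i x, Ex (val h (b i i)) x = ∑ l, Ex (star (val h (c l i)) * val h (c l i)) x := by
    intro i x
    rw [hbii, map_sum, Ex_sum]
    refine Finset.sum_congr rfl fun l _ => ?_
    rw [map_mul, map_star]
  have hExnn : ∀ i x, 0 ≤ Ex (val h (b i i)) x := by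
    intro i x
    rw [hExi]
    exact Finset.sum_nonneg fun l _ => Ex_star_mul_self_nonneg _ _
  -- some diagonal entry has nonzero expectation
  have hex : ∃ i x, Ex (val h (b i i)) x ≠ 0 := by
    by_contra hcon
    push Not at hcon
    apply hb0
    have hc0 : c = 0 := by
      refine CStarMatrix.ext fun l i => ?_
      rw [CStarMatrix.zero_apply]
      refine Ex_faithful h (c l i) fun x => ?_
      have h0 := hcon i x
      rw [hExi] at h0
      have := (Finset.sum_eq_zero_iff_of_nonneg
        (fun l _ => Ex_star_mul_self_nonneg (val h (c l i)) x)).mp h0 l (Finset.mem_univ l)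
      rw [map_mul, map_star]
      exact this
    rw [hc, hc0, mul_zero]
  obtain ⟨i, x₀, hx₀⟩ := hex
  set T : Cross h := b i i with hT
  obtain ⟨c₀, hc₀, hc₀E⟩ : ∃ c₀ : ℝ, 0 < c₀ ∧ Ex (val h T) x₀ = (c₀ : ℂ) := by
    have h1 : 0 ≤ Ex (val h T) x₀ := hExnn i x₀
    refine ⟨(Ex (val h T) x₀).re, ?_, ?_⟩
    · have h2 : 0 ≤ (Ex (val h T) x₀).re := (Complex.nonneg_iff.mp h1).1
      rcases h2.lt_or_eq with h3 | h3
      · exact h3
      · exfalso
        apply hx₀
        apply Complex.ext
        · exact h3.symm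
        · exact (Complex.nonneg_iff.mp h1).2.symm
    · apply Complex.ext
      · rw [Complex.ofReal_re]
      · rw [Complex.ofReal_im]
        exact (Complex.nonneg_iff.mp h1).2.symm
  obtain ⟨O, hO, hxO, hloc⟩ := localize h hfree T x₀ (c₀ / 4) (by positivity)
  obtain ⟨f, hf0, hf1, hf⟩ := exists_continuous_zero_one_of_isClosed (s := Oᶜ) (t := {x₀})
    hO.isClosed_compl isClosed_singleton (by simpa using hxO)
  have hfx : f x₀ = 1 := by simpa using hf1 (Set.mem_singleton x₀)
  have hloc' := hloc f (fun x => ⟨(hf x).1, (hf x).2⟩) (fun x hx => by simpa using hf0 hx)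
  rw [hc₀E, ← cfun_smul] at hloc'
  set g : C(X, ℝ) := c₀ • (f * f) with hg
  set y : Cross h := cfun h f * T * cfun h f with hy
  -- self-adjointness
  have hTsa : IsSelfAdjoint T := by
    rw [hT, hbii]
    exact isSelfAdjoint_sum _ fun l _ => IsSelfAdjoint.star_mul_self _
  have hysa : IsSelfAdjoint y := by
    have : star y = y := by
      rw [hy, star_mul, star_mul, star_cfun, hTsa.star_eq, mul_assoc]
    exact this
  have hxsa : IsSelfAdjoint (cfun h g) := star_cfun h g
  have hle : cfun h g - ((c₀ / 4 : ℝ) : ℂ) • (1 : Cross h) ≤ y := le_of_norm_sub_le hxsa hysa hloc'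
  let e : C(X, ℝ) := ⟨fun x => max (g x - c₀ / 4) 0, by fun_prop⟩
  have he : ∀ x, e x = max (g x - c₀ / 4) 0 := fun _ => rfl
  refine ⟨e * e * e, fun x => ?_, ⟨x₀, ?_⟩, ?_⟩
  · have : 0 ≤ e x := le_max_right _ _
    simp only [ContinuousMap.mul_apply]
    positivity
  · have : 0 < e x₀ := by
      rw [he]
      refine lt_max_of_lt_left ?_
      simp only [hg, ContinuousMap.smul_apply, ContinuousMap.mul_apply, hfx, smul_eq_mul]
      linarith
    simp only [ContinuousMap.mul_apply]
    positivity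
  · -- the inequality
    have h1 : cfun h (e * e * e) ≤ cfun h e * y * cfun h e := by
      have h2 := star_left_conjugate_le_conjugate hle (cfun h e)
      rw [star_cfun] at h2
      refine le_trans (le_of_eq ?_) h2
      have h3 : ((c₀ / 4 : ℝ) : ℂ) • (1 : Cross h) = cfun h ((c₀ / 4) • (1 : C(X, ℝ))) := by
        rw [cfun_smul, cfun_one]
      rw [h3, ← cfun_sub, ← cfun_mul, ← cfun_mul]
      congr 1
      ext x
      simp only [ContinuousMap.mul_apply, ContinuousMap.sub_apply, ContinuousMap.smul_apply,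
        ContinuousMap.one_apply, smul_eq_mul, mul_one]
      rcases le_total (g x - c₀ / 4) 0 with h4 | h4
      · rw [he, max_eq_right h4]
        simp
      · rw [he, max_eq_left h4]
    have h2 : cfun h e * y * cfun h e = cfun h (e * f) * T * star (cfun h (e * f)) := by
      rw [star_cfun, hy, cfun_mul, mul_assoc, mul_assoc, mul_assoc, mul_assoc, mul_assoc,
        ← cfun_mul h f e, mul_comm f e, cfun_mul]
    have h3 : e00 k (cfun h (e * e * e)) ≤
        row k i (cfun h (e * f)) * b * star (row k i (cfun h (e * f))) := by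
      rw [row_conj, ← hT, ← h2, ← sub_nonneg, ← e00_sub]
      exact e00_nonneg k (sub_nonneg.mpr h1)
    have h4 : 0 ≤ e00 k (cfun h (e * e * e)) := by
      refine e00_nonneg k (cfun_nonneg h fun x => ?_)
      have : 0 ≤ e x := le_max_right _ _
      simp only [ContinuousMap.mul_apply]
      positivity
    exact (CuntzLE.of_le h4 h3).trans (CuntzLE.conj _ _)

end Pool.Agent.Helper61.RC
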